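import Pool.Agent.W5h23.MT.Dim
import Pool.Agent.W5h28.PH.Last

/-!
# Exceptional parameters: the abstract theorem
-/

set_option autoImplicit false

namespace Pool.Agent.W5h23.MT

open Finset Filter
open scoped ENNReal
open Pool.Agent.W147.PS (ff)
open Pool.Agent.W5h28.PH (PrimeFree)

/-- the elements of `A` in `[N, 2 N]` -/
def blk (A : Set ℝ) (N : ℝ) : Set ℝ := {a | a ∈ A ∧ N ≤ a ∧ a ≤ 2 * N}

/-- the elements of `A` in `[N, 2 N]` with a prime-free interval of radius `κ L(a)` around `F α a` -/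
def gd (F : ℝ → ℝ → ℝ) (A : Set ℝ) (κ α N : ℝ) : Set ℝ :=
  {a | a ∈ A ∧ N ≤ a ∧ a ≤ 2 * N ∧ PrimeFree (F α a) (κ * ff a)}

/-- the exponent of `A` is at least `β` -/
def Exponent (A : Set ℝ) (β : ℝ) : Prop :=
  ∀ δ : ℝ, 0 < δ → ∀ N₀ : ℝ, ∃ N : ℝ, N₀ ≤ N ∧ N ^ (β - δ) ≤ ((blk A N).ncard : ℝ)

/-- the good parameters -/
def Reg (F : ℝ → ℝ → ℝ) (A : Set ℝ) (β α : ℝ) : Prop :=
  ∀ δ : ℝ, 0 < δ → ∃ κ : ℝ, 0 < κ ∧ ∀ N₀ : ℝ, ∃ N : ℝ, N₀ ≤ N ∧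
    N ^ (β - δ) ≤ ((gd F A κ α N).ncard : ℝ)

/-- the elements have mutual distances at least `1` -/
def Sep (A : Set ℝ) : Prop := ∀ a ∈ A, ∀ b ∈ A, a ≠ b → 1 ≤ |a - b|

theorem blk_finite {A : Set ℝ} (hA : Sep A) (N : ℝ) : (blk A N).Finite := by
  refine Set.Finite.of_finite_image (f := fun a : ℝ => ⌊a⌋)
    ((Set.finite_Icc ⌊N⌋ ⌊2 * N⌋).subset ?_) ?_
  · rintro _ ⟨a, ⟨-, h1, h2⟩, rfl⟩
    exact ⟨Int.floor_le_floor h1, Int.floor_le_floor h2⟩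
  · intro a ha b hb hab
    by_contra hne
    have h1 := hA a ha.1 b hb.1 hne
    have h2 := Int.abs_sub_lt_one_of_floor_eq_floor hab
    linarith

theorem gd_sub (F : ℝ → ℝ → ℝ) (A : Set ℝ) (κ α N : ℝ) : gd F A κ α N ⊆ blk A N :=
  fun _ h => ⟨h.1, h.2.1, h.2.2.1⟩

open Classical in
/-- the input: record gaps for families of separated parameters -/
def Input (F : ℝ → ℝ → ℝ) (A J : Set ℝ) (ρ : ℝ) : Prop :=
  ∀ ε : ℝ, 0 < ε → ∃ κ : ℝ, 0 < κ ∧ ∀ᶠ N : ℝ in atTop, ∀ X : Finset ℝ, (∀ x ∈ X, x ∈ J) →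
    (∀ x ∈ X, ∀ y ∈ X, x ≠ y → 1 ≤ N ^ ρ * |x - y|) → ∀ B : Finset ℝ, (∀ b ∈ B, b ∈ blk A N) →
    N ^ (ρ + ε) ≤ (X.card : ℝ) * B.card →
    (X.card : ℝ) * B.card * N ^ (-ε) ≤
      (((X ×ˢ B).filter fun p : ℝ × ℝ => PrimeFree (F p.1 p.2) (κ * ff p.2)).card : ℝ)

open Classical in
theorem level (F : ℝ → ℝ → ℝ) (A J : Set ℝ) (ρ β : ℝ) (hρ : 0 < ρ) (hβ0 : 0 ≤ β) (hβρ : β ≤ ρ)
    (hA : Sep A) (hexp : Exponent A β) (hin : Input F A J ρ) (δ : ℝ) (hδ : 0 < δ) (ε : ℝ)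
    (hε : 0 < ε) (hεδ : 2 * ε < δ) (κ : ℝ)
    (hκ : ∀ᶠ N : ℝ in atTop, ∀ X : Finset ℝ, (∀ x ∈ X, x ∈ J) →
      (∀ x ∈ X, ∀ y ∈ X, x ≠ y → 1 ≤ N ^ ρ * |x - y|) → ∀ B : Finset ℝ, (∀ b ∈ B, b ∈ blk A N) →
      N ^ (ρ + ε) ≤ (X.card : ℝ) * B.card →
      (X.card : ℝ) * B.card * N ^ (-ε) ≤
        (((X ×ˢ B).filter fun p : ℝ × ℝ => PrimeFree (F p.1 p.2) (κ * ff p.2)).card : ℝ))
    (N₀ : ℝ) :
    dimH {α : ℝ | α ∈ J ∧ ∀ N : ℝ, N₀ ≤ N → ((gd F A κ α N).ncard : ℝ) < N ^ (β - δ)} ≤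
      ENNReal.ofReal (1 - β / ρ + 3 * ε / ρ) := by
  have hβρ' : β / ρ ≤ 1 := by rw [div_le_one hρ]; exact hβρ
  refine dim_le _ _ (by have : 0 < 3 * ε / ρ := by positivity
                        linarith) fun R₀ => ?_
  obtain ⟨N1, hN1⟩ := eventually_atTop.1 hκ
  have hlarge : ∀ᶠ N : ℝ in atTop, R₀ ≤ N ^ ρ := (tendsto_rpow_atTop hρ).eventually_ge_atTop R₀
  obtain ⟨N2, hN2⟩ := eventually_atTop.1 hlarge
  obtain ⟨N, hN, hcard⟩ := hexp ε hε (max (max N1 N2) (max N₀ 2))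
  have h1 : N1 ≤ N := (le_max_left _ _).trans ((le_max_left _ _).trans hN)
  have h2 : N2 ≤ N := (le_max_right _ _).trans ((le_max_left _ _).trans hN)
  have h3 : N₀ ≤ N := (le_max_left _ _).trans ((le_max_right _ _).trans hN)
  have h4 : (2 : ℝ) ≤ N := (le_max_right _ _).trans ((le_max_right _ _).trans hN)
  have hNpos : 0 < N := by linarith
  refine ⟨N ^ ρ, hN2 N h2, fun X hX hsep => ?_⟩
  by_contra hcon
  push Not at hcon
  set B : Finset ℝ := (blk_finite hA N).toFinset with hB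
  have hBc : (B.card : ℝ) = ((blk A N).ncard : ℝ) := by
    rw [hB, Set.ncard_eq_toFinset_card _ (blk_finite hA N)]
  have hBge : N ^ (β - ε) ≤ (B.card : ℝ) := by rw [hBc]; exact hcard
  have hpow : (N ^ ρ) ^ (1 - β / ρ + 3 * ε / ρ) = N ^ (ρ - β + 3 * ε) := by
    rw [← Real.rpow_mul hNpos.le]
    congr 1
    field_simp
  rw [hpow] at hcon
  have hXpos : (0 : ℝ) < X.card := lt_of_le_of_lt (by positivity) hcon
  have hprod : N ^ (ρ + ε) ≤ (X.card : ℝ) * B.card := by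
    calc N ^ (ρ + ε) ≤ N ^ (ρ - β + 3 * ε + (β - ε)) :=
          Real.rpow_le_rpow_of_exponent_le (by linarith) (by linarith)
      _ = N ^ (ρ - β + 3 * ε) * N ^ (β - ε) := Real.rpow_add hNpos _ _
      _ ≤ (X.card : ℝ) * B.card := mul_le_mul hcon.le hBge (by positivity) hXpos.le
  have hmain := hN1 N h1 X (fun x hx => (hX x hx).1) hsep B
    (fun b hb => by rwa [hB, Set.Finite.mem_toFinset] at hb) hprod
  have hfib : ∀ x ∈ X, ((B.filter fun b => PrimeFree (F x b) (κ * ff b)).card : ℝ) ≤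
      N ^ (β - δ) := by
    intro x hx
    have h5 := (hX x hx).2 N h3
    have h6 : (B.filter fun b => PrimeFree (F x b) (κ * ff b)).card = (gd F A κ x N).ncard := by
      rw [Set.ncard_eq_toFinset_card _ ((blk_finite hA N).subset (gd_sub F A κ x N))]
      congr 1
      ext b
      rw [Finset.mem_filter, hB, Set.Finite.mem_toFinset, Set.Finite.mem_toFinset]
      constructor
      · rintro ⟨⟨h7, h8, h9⟩, h10⟩
        exact ⟨h7, h8, h9, h10⟩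
      · rintro ⟨h7, h8, h9, h10⟩
        exact ⟨⟨h7, h8, h9⟩, h10⟩
    rw [h6]
    exact h5.le
  have hcount : (((X ×ˢ B).filter fun p : ℝ × ℝ => PrimeFree (F p.1 p.2) (κ * ff p.2)).card : ℝ) ≤
      X.card * N ^ (β - δ) := by
    rw [Finset.card_filter, Finset.sum_product]
    push_cast
    rw [← nsmul_eq_mul]
    refine Finset.sum_le_card_nsmul _ _ _ fun x hx => ?_
    refine le_trans (le_of_eq ?_) (hfib x hx)
    rw [Finset.card_filter]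
    push_cast
    rfl
  have h7 : (X.card : ℝ) * (N ^ (β - ε) * N ^ (-ε)) ≤ X.card * N ^ (β - δ) := by
    refine le_trans ?_ (hmain.trans hcount)
    calc (X.card : ℝ) * (N ^ (β - ε) * N ^ (-ε)) = X.card * N ^ (β - ε) * N ^ (-ε) := by ring
      _ ≤ (X.card : ℝ) * B.card * N ^ (-ε) := by gcongr
  have h8 := le_of_mul_le_mul_left h7 hXpos
  rw [← Real.rpow_add hNpos] at h8
  have h9 : N ^ (β - δ) < N ^ (β - ε + -ε) :=
    Real.rpow_lt_rpow_of_exponent_lt (by linarith) (by linarith)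
  linarith

/-- **The dimension of the set of the exceptional parameters.** -/
theorem dim_main (F : ℝ → ℝ → ℝ) (A J : Set ℝ) (ρ β : ℝ) (hρ : 0 < ρ) (hβ0 : 0 ≤ β)
    (hβρ : β ≤ ρ) (hA : Sep A) (hexp : Exponent A β) (hin : Input F A J ρ) :
    dimH {α : ℝ | α ∈ J ∧ ¬ Reg F A β α} ≤ ENNReal.ofReal (1 - β / ρ) := by
  have hβρ' : β / ρ ≤ 1 := by rw [div_le_one hρ]; exact hβρ
  -- for a fixed `δ`
  have hfix : ∀ δ : ℝ, 0 < δ → dimH {α : ℝ | α ∈ J ∧ ∀ κ : ℝ, 0 < κ → ∃ N₀ : ℝ, ∀ N : ℝ, N₀ ≤ N →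
      ((gd F A κ α N).ncard : ℝ) < N ^ (β - δ)} ≤ ENNReal.ofReal (1 - β / ρ) := by
    intro δ hδ
    have hle : ∀ ε : ℝ, 0 < ε → 2 * ε < δ → dimH {α : ℝ | α ∈ J ∧ ∀ κ : ℝ, 0 < κ →
        ∃ N₀ : ℝ, ∀ N : ℝ, N₀ ≤ N → ((gd F A κ α N).ncard : ℝ) < N ^ (β - δ)} ≤
        ENNReal.ofReal (1 - β / ρ + 3 * ε / ρ) := by
      intro ε hε hεδ
      obtain ⟨κ, hκ0, hκ⟩ := hin ε hε
      have hsub : {α : ℝ | α ∈ J ∧ ∀ κ : ℝ, 0 < κ →
          ∃ N₀ : ℝ, ∀ N : ℝ, N₀ ≤ N → ((gd F A κ α N).ncard : ℝ) < N ^ (β - δ)} ⊆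
          ⋃ n : ℕ, {α : ℝ | α ∈ J ∧ ∀ N : ℝ, (n : ℝ) ≤ N →
            ((gd F A κ α N).ncard : ℝ) < N ^ (β - δ)} := by
        rintro α ⟨h1, h2⟩
        obtain ⟨N₀, hN₀⟩ := h2 κ hκ0
        rw [Set.mem_iUnion]
        exact ⟨⌈N₀⌉₊, h1, fun N hN => hN₀ N ((Nat.le_ceil N₀).trans hN)⟩
      refine (dimH_mono hsub).trans ?_
      rw [dimH_iUnion]
      exact iSup_le fun n => level F A J ρ β hρ hβ0 hβρ hA hexp hin δ hδ ε hε hεδ κ hκ n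
    -- `ε → 0`
    have hcont : Tendsto (fun ε : ℝ => ENNReal.ofReal (1 - β / ρ + 3 * ε / ρ))
        (nhdsWithin 0 (Set.Ioi 0)) (nhds (ENNReal.ofReal (1 - β / ρ + 3 * 0 / ρ))) := by
      refine (ENNReal.continuous_ofReal.tendsto _).comp ?_
      refine Tendsto.mono_left (Continuous.tendsto (by fun_prop) 0) nhdsWithin_le_nhds
    rw [mul_zero, zero_div, add_zero] at hcont
    refine ge_of_tendsto hcont ?_
    have h1 : Set.Ioo (0 : ℝ) (δ / 2) ∈ nhdsWithin (0 : ℝ) (Set.Ioi 0) :=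
      Ioo_mem_nhdsGT (by positivity)
    filter_upwards [h1] with ε hε
    exact hle ε hε.1 (by linarith [hε.2])
  have hsub : {α : ℝ | α ∈ J ∧ ¬ Reg F A β α} ⊆ ⋃ m : ℕ, {α : ℝ | α ∈ J ∧ ∀ κ : ℝ, 0 < κ →
      ∃ N₀ : ℝ, ∀ N : ℝ, N₀ ≤ N →
        ((gd F A κ α N).ncard : ℝ) < N ^ (β - 1 / ((m : ℝ) + 1))} := by
    rintro α ⟨h1, h2⟩
    unfold Reg at h2
    push Not at h2
    obtain ⟨δ, hδ, h3⟩ := h2
    obtain ⟨m, hm⟩ := exists_nat_one_div_lt hδ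
    rw [Set.mem_iUnion]
    refine ⟨m, h1, fun κ hκ => ?_⟩
    obtain ⟨N₀, hN₀⟩ := h3 κ hκ
    refine ⟨max N₀ 1, fun N hN => (hN₀ N ((le_max_left _ _).trans hN)).trans_le ?_⟩
    exact Real.rpow_le_rpow_of_exponent_le ((le_max_right _ _).trans hN) (by linarith)
  refine (dimH_mono hsub).trans ?_
  rw [dimH_iUnion]
  exact iSup_le fun m => hfix _ (by positivity)

end Pool.Agent.W5h23.MT
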