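import Mathlib

/-!
# Upper bounds for Hausdorff dimensions from separated sets at infinitely many scales
-/

set_option autoImplicit false

namespace Pool.Agent.W5h23.MT

open Finset Filter MeasureTheory MeasureTheory.Measure
open scoped ENNReal NNReal Topology

/-- a maximal separated subset -/
theorem exists_max (E : Set ℝ) (R M : ℝ)
    (h : ∀ X : Finset ℝ, (∀ x ∈ X, x ∈ E) → (∀ x ∈ X, ∀ y ∈ X, x ≠ y → 1 ≤ R * |x - y|) →
      (X.card : ℝ) ≤ M) :
    ∃ X : Finset ℝ, (X.card : ℝ) ≤ M ∧ ∀ e ∈ E, ∃ x ∈ X, R * |e - x| < 1 := by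
  classical
  let P : ℕ → Prop := fun n => ∃ X : Finset ℝ, (∀ x ∈ X, x ∈ E) ∧
    (∀ x ∈ X, ∀ y ∈ X, x ≠ y → 1 ≤ R * |x - y|) ∧ X.card = n
  have hP0 : P 0 := ⟨∅, by simp, by simp, rfl⟩
  have hPb : ∀ n, P n → n ≤ ⌊M⌋₊ := by
    rintro n ⟨X, h1, h2, rfl⟩
    exact Nat.le_floor (h X h1 h2)
  have hmax : P (Nat.findGreatest P ⌊M⌋₊) := Nat.findGreatest_spec (m := 0) (Nat.zero_le _) hP0
  obtain ⟨X, h1, h2, h3⟩ := hmax
  refine ⟨X, h X h1 h2, fun e he => ?_⟩
  by_contra hcon
  push Not at hcon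
  by_cases heX : e ∈ X
  · have := hcon e heX
    rw [sub_self, abs_zero, mul_zero] at this
    linarith
  · have h4 : P (X.card + 1) := by
      refine ⟨insert e X, ?_, ?_, Finset.card_insert_of_notMem heX⟩
      · intro x hx
        rcases Finset.mem_insert.1 hx with rfl | hx
        · exact he
        · exact h1 x hx
      · intro x hx y hy hxy
        rcases Finset.mem_insert.1 hx with hx1 | hx1
        · rcases Finset.mem_insert.1 hy with hy1 | hy1
          · exact absurd (hx1.trans hy1.symm) hxy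
          · rw [hx1]
            exact hcon y hy1
        · rcases Finset.mem_insert.1 hy with hy1 | hy1
          · rw [abs_sub_comm, hy1]
            exact hcon x hx1
          · exact h2 x hx1 y hy1 hxy
    have h5 := Nat.le_findGreatest (hPb _ h4) h4
    omega

/-- separated subsets of cardinality at most `R ^ s` at arbitrarily small scales `1 / R` -/
theorem dim_le (E : Set ℝ) (s : ℝ) (hs : 0 ≤ s)
    (h : ∀ R₀ : ℝ, ∃ R : ℝ, R₀ ≤ R ∧ ∀ X : Finset ℝ, (∀ x ∈ X, x ∈ E) →
      (∀ x ∈ X, ∀ y ∈ X, x ≠ y → 1 ≤ R * |x - y|) → (X.card : ℝ) ≤ R ^ s) :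
    dimH E ≤ ENNReal.ofReal s := by
  have hs' : ENNReal.ofReal s = ((s.toNNReal : ℝ≥0) : ℝ≥0∞) := rfl
  rw [hs']
  apply dimH_le_of_hausdorffMeasure_ne_top
  rw [Real.coe_toNNReal s hs]
  choose R hR1 hR2 using fun n : ℕ => h ((n : ℝ) + 1)
  choose X hX1 hX2 using fun n : ℕ => exists_max E (R n) _ (hR2 n)
  have hRpos : ∀ n, 0 < R n := fun n => by
    have := hR1 n
    have : (0 : ℝ) ≤ n := Nat.cast_nonneg n
    linarith
  have hr : Tendsto (fun n : ℕ => ENNReal.ofReal (2 / R n)) atTop (𝓝 0) := by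
    rw [← ENNReal.ofReal_zero]
    refine ENNReal.tendsto_ofReal ?_
    have h1 : Tendsto R atTop atTop := tendsto_atTop_mono hR1
      (tendsto_atTop_add_const_right _ 1 tendsto_natCast_atTop_atTop)
    exact h1.const_div_atTop 2
  have hdiam : ∀ n : ℕ, ∀ x : X n, Metric.ediam (Metric.closedBall (x : ℝ) (1 / R n)) ≤
      ENNReal.ofReal (2 / R n) := by
    intro n x
    have h1 := Metric.ediam_closedEBall_le (x := (x : ℝ)) (r := ENNReal.ofReal (1 / R n))
    rw [Metric.closedEBall_ofReal (by have := hRpos n; positivity)] at h1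
    refine h1.trans (le_of_eq ?_)
    rw [← ENNReal.ofReal_ofNat 2, ← ENNReal.ofReal_mul (by norm_num)]
    congr 1
    ring
  have hmain := hausdorffMeasure_le_liminf_sum (X := ℝ) (ι := fun n : ℕ => X n) s E
    (l := atTop) (fun n => ENNReal.ofReal (2 / R n)) hr
    (fun n (x : X n) => Metric.closedBall (x : ℝ) (1 / R n))
    (Eventually.of_forall hdiam) (Eventually.of_forall fun n => by
      intro e he
      obtain ⟨x, hx, hxe⟩ := hX2 n e he
      rw [Set.mem_iUnion]
      refine ⟨⟨x, hx⟩, ?_⟩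
      rw [Metric.mem_closedBall, Real.dist_eq, le_div_iff₀ (hRpos n), mul_comm]
      exact hxe.le)
  have hbd : ∀ n : ℕ, ∑ x : X n, (Metric.ediam (Metric.closedBall (x : ℝ) (1 / R n))) ^ s ≤
      ENNReal.ofReal (2 ^ s) := by
    intro n
    have h1 : ∀ x : X n, (Metric.ediam (Metric.closedBall (x : ℝ) (1 / R n))) ^ s ≤
        ENNReal.ofReal ((2 / R n) ^ s) := by
      intro x
      rw [← ENNReal.ofReal_rpow_of_pos (by have := hRpos n; positivity)]
      exact ENNReal.rpow_le_rpow (hdiam n x) hs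
    refine (Finset.sum_le_sum fun x _ => h1 x).trans ?_
    rw [Finset.sum_const, Finset.card_univ, Fintype.card_coe, nsmul_eq_mul,
      ← ENNReal.ofReal_natCast, ← ENNReal.ofReal_mul (Nat.cast_nonneg _)]
    refine ENNReal.ofReal_le_ofReal ?_
    have hRn := hRpos n
    calc ((X n).card : ℝ) * (2 / R n) ^ s ≤ (R n) ^ s * (2 / R n) ^ s :=
          mul_le_mul_of_nonneg_right (hX1 n) (by positivity)
      _ = 2 ^ s := by
          rw [← Real.mul_rpow hRn.le (by positivity)]
          congr 1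
          field_simp
  have hlim : liminf (fun n : ℕ => ∑ x : X n,
      (Metric.ediam (Metric.closedBall (x : ℝ) (1 / R n))) ^ s) atTop ≤ ENNReal.ofReal (2 ^ s) := by
    refine liminf_le_of_frequently_le' (Frequently.of_forall hbd)
  exact (lt_of_le_of_lt (hmain.trans hlim) ENNReal.ofReal_lt_top).ne

end Pool.Agent.W5h23.MT
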