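import Pool.Agent.W5h23.MT.Abs

/-!
# The input for dilations and for exponents
-/

set_option autoImplicit false

namespace Pool.Agent.W5h23.MT

open Finset Filter
open Pool.Agent.W147.PS (ff ff_compare)
open Pool.Agent.W5h28.PH (PrimeFree Separated Phase general)

theorem pf_mono {x d d' : ℝ} (h : PrimeFree x d) (hd : d' ≤ d) : PrimeFree x d' :=
  fun q hq => lt_of_le_of_lt hd (h q hq)

/-- the sizes at `N` and at the elements of the block -/
theorem ff_blk : ∀ᶠ N : ℝ in atTop, ∀ a : ℝ, N ≤ a → a ≤ 2 * N → 1 / 64 * ff a ≤ ff N := by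
  obtain ⟨M0, hM0⟩ := eventually_atTop.1 (ff_compare (1 / 2) (by norm_num) (by norm_num))
  filter_upwards [eventually_ge_atTop M0, eventually_ge_atTop 4] with N hN hN4 a ha ha2
  have h1 := (hM0 a (hN.trans ha)).2 N
  have ha0 : 0 < a := by linarith
  have h2 : a ^ (1 / 2 : ℝ) ≤ N := by
    rw [← Real.sqrt_eq_rpow, Real.sqrt_le_left (by linarith)]
    nlinarith
  have h3 := (h1 h2 (by nlinarith)).1
  linarith

open Classical in
/-- a scaled family of parameters -/
theorem scaled_card (X B : Finset ℝ) (R : ℝ) (hR : 0 < R) (P Q : ℝ → ℝ → Prop)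
    (hPQ : ∀ x ∈ X, ∀ b ∈ B, P (R * x) b → Q x b) :
    (((X.image fun x => R * x) ×ˢ B).filter fun p : ℝ × ℝ => P p.1 p.2).card ≤
      ((X ×ˢ B).filter fun p : ℝ × ℝ => Q p.1 p.2).card := by
  refine (Finset.card_le_card (t := ((X ×ˢ B).filter fun p : ℝ × ℝ => Q p.1 p.2).image
    fun p => (R * p.1, p.2)) ?_).trans Finset.card_image_le
  rintro ⟨x, b⟩ hp
  rw [Finset.mem_filter, Finset.mem_product, Finset.mem_image] at hp
  obtain ⟨⟨⟨x', hx', hx⟩, hb⟩, hP⟩ := hp
  rw [Finset.mem_image]
  refine ⟨(x', b), ?_, Prod.ext hx rfl⟩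
  rw [Finset.mem_filter, Finset.mem_product]
  refine ⟨⟨hx', hb⟩, hPQ x' hx' b hb ?_⟩
  rw [hx]
  exact hP

theorem scaled_image_card (X : Finset ℝ) (R : ℝ) (hR : 0 < R) :
    (X.image fun x => R * x).card = X.card :=
  Finset.card_image_of_injective _ fun x y h => mul_left_cancel₀ hR.ne' h

/-- **Dilations.** -/
theorem input_dil (A : Set ℝ) (hA : Sep A) (u : ℝ) (hu : 0 < u) (f g : ℝ → ℝ)
    (hf : ∀ x, 0 ≤ f x) (hg : ∀ x, 0 ≤ g x) :
    Input (fun α a => α * a + f α + g a) A (Set.Icc u (2 * u)) 1 := by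
  classical
  intro ε hε
  set ε₁ : ℝ := min ε 1 / 2 with hε₁
  have hε₁0 : 0 < ε₁ := by
    have : 0 < min ε 1 := lt_min hε one_pos
    positivity
  have hε₁ε : ε₁ ≤ ε / 2 := by
    rw [hε₁]
    have := min_le_left ε 1
    linarith
  have hε₁1 : ε₁ ≤ 1 / 2 := by
    rw [hε₁]
    have := min_le_right ε 1
    linarith
  obtain ⟨κ, hκ, hgen⟩ := general ε₁ hε₁0
  refine ⟨κ / 64, by positivity, ?_⟩
  have hlim : ∀ s : ℝ, 0 < s → Tendsto (fun N : ℝ => N ^ s) atTop atTop := fun s hs =>
    tendsto_rpow_atTop hs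
  filter_upwards [hgen 1 le_rfl, ff_blk, eventually_ge_atTop 1,
    (hlim (ε / 2) (by positivity)).eventually_ge_atTop (max u 1),
    (hlim (1 / 2) (by positivity)).eventually_ge_atTop (1 / u),
    eventually_ge_atTop (1 / u)] with N hN hff hN1 hNu hNu2 hNu3
  intro X hX hsep B hB hcard
  have hN0 : 0 < N := by linarith
  have hNu1 : 1 ≤ N * u := by
    rwa [div_le_iff₀ hu] at hNu3
  have hphase : Phase 1 (N * u) (N * u) N (N * u) N (fun x y => x * y / N) := by
    refine ⟨fun _ y => y / N, fun _ _ => 0, fun _ _ => 1 / N, fun _ _ => 0, ?_, ?_⟩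
    · intro x _ y _
      refine ⟨?_, hasDerivAt_const _ _, ?_, hasDerivAt_const _ _, ?_, ?_, ?_⟩
      · have h1 := ((hasDerivAt_id x).mul_const y).div_const N
        simpa using h1
      · have h1 := (hasDerivAt_id y).div_const N
        simpa using h1
      · rw [abs_of_pos (by positivity)]
        apply le_of_eq
        have : N * u ≠ 0 := by positivity
        field_simp
      · rw [abs_of_pos (by positivity)]
        apply le_of_eq
        have : N * u ≠ 0 := by positivity
        field_simp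
      · rw [abs_zero]
        positivity
    · intro y _
      exact continuousOn_const
  have hsepX : Separated (N * u) (N * u) (X.image fun x => N * x) := by
    refine ⟨?_, ?_⟩
    · intro x hx
      rw [Finset.mem_image] at hx
      obtain ⟨x', hx', rfl⟩ := hx
      obtain ⟨h1, h2⟩ := hX x' hx'
      exact ⟨mul_le_mul_of_nonneg_left h1 hN0.le, by nlinarith⟩
    · intro x hx y hy hxy
      rw [Finset.mem_image] at hx hy
      obtain ⟨x', hx', rfl⟩ := hx
      obtain ⟨y', hy', rfl⟩ := hy
      have h1 := hsep x' hx' y' hy' (fun h => hxy (by rw [h]))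
      rw [Real.rpow_one] at h1
      rw [← mul_sub, abs_mul, abs_of_pos hN0]
      exact h1
  have hsepB : Separated N N B := by
    refine ⟨fun b hb => ?_, fun a ha b hb hab => hA a (hB a ha).1 b (hB b hb).1 hab⟩
    obtain ⟨-, h1, h2⟩ := hB b hb
    exact ⟨h1, by linarith⟩
  have hXc := scaled_image_card X N hN0
  have hcond : N ^ ε₁ * max (max (N * u) N) (max (N * u) (N * u * N / (N * u))) ≤
      ((X.image fun x => N * x).card : ℝ) * B.card := by
    rw [hXc]
    refine le_trans ?_ hcard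
    have h1 : N * u * N / (N * u) = N := by
      have : N * u ≠ 0 := by positivity
      field_simp
    have h2 : max (max (N * u) N) (max (N * u) (N * u * N / (N * u))) ≤ N * max u 1 := by
      rw [h1]
      have h3 : N * u ≤ N * max u 1 := mul_le_mul_of_nonneg_left (le_max_left _ _) hN0.le
      have h4 : N ≤ N * max u 1 := le_mul_of_one_le_right hN0.le (le_max_right _ _)
      exact max_le (max_le h3 h4) (max_le h3 h4)
    calc N ^ ε₁ * max (max (N * u) N) (max (N * u) (N * u * N / (N * u))) ≤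
          N ^ ε₁ * (N * max u 1) := mul_le_mul_of_nonneg_left h2 (by positivity)
      _ ≤ N ^ (ε / 2) * (N * N ^ (ε / 2)) := by
          refine mul_le_mul (Real.rpow_le_rpow_of_exponent_le hN1 hε₁ε)
            (mul_le_mul_of_nonneg_left hNu hN0.le) (by positivity) (by positivity)
      _ = N ^ ((1 : ℝ) + ε) := by
          have h5 : N = N ^ (1 : ℝ) := (Real.rpow_one N).symm
          conv_lhs => rw [show N * N ^ (ε / 2) = N ^ (1 : ℝ) * N ^ (ε / 2) by rw [Real.rpow_one]]
          rw [← Real.rpow_add hN0, ← Real.rpow_add hN0]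
          congr 1
          ring
  have hval : ∀ a ∈ (X.image fun x => N * x), ∀ b ∈ B,
      N ^ ε₁ ≤ a * b / N + f (a / N) + g b := by
    intro a ha b hb
    rw [Finset.mem_image] at ha
    obtain ⟨x, hx, rfl⟩ := ha
    obtain ⟨h1, -⟩ := hX x hx
    obtain ⟨-, h2, -⟩ := hB b hb
    have h3 : N * x * b / N = x * b := by field_simp
    rw [h3]
    have h4 := hf (N * x / N)
    have h5 := hg b
    have h6 : N ^ ε₁ ≤ x * b := by
      have h7 : N ^ (1 / 2 : ℝ) * N ^ (1 / 2 : ℝ) = N := by
        rw [← Real.rpow_add hN0]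
        norm_num
      have h8 : 1 ≤ u * N ^ (1 / 2 : ℝ) := by
        rw [div_le_iff₀ hu] at hNu2
        linarith
      calc N ^ ε₁ ≤ N ^ (1 / 2 : ℝ) := Real.rpow_le_rpow_of_exponent_le hN1 hε₁1
        _ ≤ u * N ^ (1 / 2 : ℝ) * N ^ (1 / 2 : ℝ) := le_mul_of_one_le_left (by positivity) h8
        _ = u * N := by rw [mul_assoc, h7]
        _ ≤ x * b := mul_le_mul h1 h2 hN0.le (hu.le.trans h1)
    linarith
  have hmain := hN (N * u) (N * u) N (N * u) N (by positivity) hNu1 hN1 le_rfl
    (fun x y => x * y / N) hphase (X.image fun x => N * x) B hsepX hsepB hcond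
    (fun x => f (x / N)) g hval
  rw [hXc] at hmain
  have hcomp := scaled_card X B N hN0
    (fun x b => PrimeFree (x * b / N + f (x / N) + g b) (κ * ff N))
    (fun x b => PrimeFree (x * b + f x + g b) (κ / 64 * ff b)) (by
      intro x hx b hb h
      obtain ⟨-, h2, h3⟩ := hB b hb
      have e1 : N * x * b / N = x * b := by field_simp
      have e2 : N * x / N = x := by field_simp
      rw [e1, e2] at h
      refine pf_mono h ?_
      have h4 := hff b h2 h3
      nlinarith)
  have hNe : N ^ (-ε) ≤ N ^ (-ε₁) := Real.rpow_le_rpow_of_exponent_le hN1 (by linarith)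
  calc (X.card : ℝ) * B.card * N ^ (-ε) ≤ (X.card : ℝ) * B.card * N ^ (-ε₁) :=
        mul_le_mul_of_nonneg_left hNe (by positivity)
    _ ≤ _ := hmain
    _ ≤ _ := by exact_mod_cast hcomp

end Pool.Agent.W5h23.MT
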