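import Pool.Agent.W5h23.MT.In

/-!
# The input for exponents
-/

set_option autoImplicit false

namespace Pool.Agent.W5h23.MT

open Finset Filter
open Pool.Agent.W147.PS (ff ff_compare)
open Pool.Agent.W5h28.PH (PrimeFree Separated Phase general)

/-- the phase `y ^ (x / R)` -/
theorem phase_exp (C N R c' : ℝ) (hC : 1 ≤ C) (hN : 1 ≤ Real.log N) (hN0 : 2 ≤ N) (hR : 0 < R)
    (hc1 : 1 ≤ c') (hcC : c' ≤ C) :
    Phase (2 ^ C * Real.exp 1 * (4 * C + 8)) (N ^ c') (R / Real.log N) N (R * c') N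
      (fun x y => y ^ (x / R)) := by
  have hl0 : 0 < Real.log N := by linarith
  have hNpos : 0 < N := by linarith
  set l : ℝ := Real.log N with hl
  refine ⟨fun x y => y ^ (x / R) * (Real.log y / R),
    fun x y => y ^ (x / R) * (Real.log y / R) ^ 2,
    fun x y => y ^ (x / R - 1) * ((x / R) * Real.log y + 1) / R,
    fun x y => y ^ (x / R - 1) * ((x / R) * Real.log y ^ 2 + 2 * Real.log y) / R ^ 2, ?_, ?_⟩
  · rintro x ⟨hx1, hx2⟩ y ⟨hy1, hy2⟩
    have hy0 : 0 < y := by linarith
    have hc1' : c' ≤ x / R := by rw [le_div_iff₀ hR]; linarith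
    have hc2' : x / R ≤ c' + 1 / l := by
      rw [div_le_iff₀ hR]
      have : (c' + 1 / l) * R = R * c' + R / l := by ring
      linarith
    set c : ℝ := x / R with hc
    have hd1 : HasDerivAt (fun t : ℝ => y ^ (t / R)) (y ^ (x / R) * (Real.log y / R)) x := by
      have h1 := ((hasDerivAt_id x).div_const R).const_rpow hy0
      refine h1.congr_deriv ?_
      simp only [id]
      ring
    have hd2 : HasDerivAt (fun t : ℝ => t ^ c) (c * y ^ (c - 1)) y :=
      Real.hasDerivAt_rpow_const (Or.inl hy0.ne')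
    have hlog : HasDerivAt Real.log y⁻¹ y := Real.hasDerivAt_log hy0.ne'
    have hyc : y ^ c = y ^ (c - 1) * y := by
      conv_rhs => rw [show y ^ (c - 1) * y = y ^ (c - 1) * y ^ (1 : ℝ) by rw [Real.rpow_one]]
      rw [← Real.rpow_add hy0, sub_add_cancel]
    have hly1 : l ≤ Real.log y := Real.log_le_log hNpos hy1
    have hly2 : Real.log y ≤ 2 * l := by
      have h1 : Real.log y ≤ Real.log (N * N) := Real.log_le_log hy0 (by nlinarith)
      rw [Real.log_mul hNpos.ne' hNpos.ne'] at h1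
      linarith
    have hl1 : 1 / l ≤ 1 := by rw [div_le_one hl0]; exact hN
    have hcC1 : c ≤ C + 1 := by linarith
    have hpow1 : N ^ (c' - 1) ≤ y ^ (c - 1) := by
      calc N ^ (c' - 1) ≤ N ^ (c - 1) := Real.rpow_le_rpow_of_exponent_le (by linarith) (by linarith)
        _ ≤ y ^ (c - 1) := Real.rpow_le_rpow hNpos.le hy1 (by linarith)
    have hpow2 : y ^ (c - 1) ≤ 2 ^ C * Real.exp 1 * N ^ (c' - 1) := by
      calc y ^ (c - 1) ≤ (2 * N) ^ (c - 1) := Real.rpow_le_rpow hy0.le (by linarith) (by linarith)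
        _ = 2 ^ (c - 1) * N ^ (c - 1) := Real.mul_rpow (by norm_num) hNpos.le
        _ ≤ 2 ^ C * N ^ (1 / l + (c' - 1)) := by
            refine mul_le_mul (Real.rpow_le_rpow_of_exponent_le (by norm_num) (by linarith))
              (Real.rpow_le_rpow_of_exponent_le (by linarith) (by linarith)) (by positivity)
              (by positivity)
        _ = 2 ^ C * Real.exp 1 * N ^ (c' - 1) := by
            rw [Real.rpow_add hNpos, Real.rpow_def_of_pos hNpos (1 / l), ← hl,
              mul_one_div_cancel hl0.ne']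
            ring
    have hp0 : 0 < y ^ (c - 1) := by positivity
    have hTN : N ^ c' = N ^ (c' - 1) * N := by
      conv_rhs => rw [show N ^ (c' - 1) * N = N ^ (c' - 1) * N ^ (1 : ℝ) by rw [Real.rpow_one]]
      rw [← Real.rpow_add hNpos, sub_add_cancel]
    have h2C : (1 : ℝ) ≤ 2 ^ C := Real.one_le_rpow (by norm_num) (by linarith)
    have he1 : (1 : ℝ) ≤ Real.exp 1 := by
      have := Real.add_one_le_exp (1 : ℝ)
      linarith
    have hpN : 0 < N ^ (c' - 1) := by positivity
    have hc0 : 0 < c := by linarith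
    have hly0 : 0 < Real.log y := by linarith
    refine ⟨hd1, ?_, ?_, ?_, ?_, ?_, ?_⟩
    · have h1 := hd1.mul_const (Real.log y / R)
      refine h1.congr_deriv ?_
      ring
    · have h1 := hd2.mul (hlog.div_const R)
      refine h1.congr_deriv ?_
      change c * y ^ (c - 1) * (Real.log y / R) + y ^ c * (y⁻¹ / R) =
        y ^ (c - 1) * (c * Real.log y + 1) / R
      rw [hyc]
      have hyi : y * y⁻¹ = 1 := mul_inv_cancel₀ hy0.ne'
      calc c * y ^ (c - 1) * (Real.log y / R) + y ^ (c - 1) * y * (y⁻¹ / R) =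
            y ^ (c - 1) * (c * Real.log y + y * y⁻¹) / R := by ring
        _ = _ := by rw [hyi]
    · have h0 : HasDerivAt (fun t : ℝ => (Real.log t / R) ^ 2)
          (2 * (Real.log y / R) * (y⁻¹ / R)) y := by
        have h1 := (hlog.div_const R).pow 2
        refine h1.congr_deriv ?_
        push_cast
        ring
      have h1 := hd2.mul h0
      refine h1.congr_deriv ?_
      change c * y ^ (c - 1) * (Real.log y / R) ^ 2 +
        y ^ c * (2 * (Real.log y / R) * (y⁻¹ / R)) =
        y ^ (c - 1) * (c * Real.log y ^ 2 + 2 * Real.log y) / R ^ 2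
      rw [hyc]
      have hyi : y * y⁻¹ = 1 := mul_inv_cancel₀ hy0.ne'
      calc c * y ^ (c - 1) * (Real.log y / R) ^ 2 +
            y ^ (c - 1) * y * (2 * (Real.log y / R) * (y⁻¹ / R)) =
            y ^ (c - 1) * (c * Real.log y ^ 2 + 2 * Real.log y * (y * y⁻¹)) / R ^ 2 := by
            field_simp
        _ = _ := by rw [hyi, mul_one]
    · rw [abs_of_pos (by positivity), hTN]
      have e1 : N ^ (c' - 1) * N / (2 ^ C * Real.exp 1 * (4 * C + 8) * (R / l * N)) =
          N ^ (c' - 1) * l / R * (1 / (2 ^ C * Real.exp 1 * (4 * C + 8))) := by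
        field_simp
      rw [e1]
      have e2 : 1 / (2 ^ C * Real.exp 1 * (4 * C + 8)) ≤ 1 := by
        rw [div_le_one (by positivity)]
        have h3 : (1 : ℝ) ≤ 2 ^ C * Real.exp 1 := by nlinarith
        nlinarith
      calc N ^ (c' - 1) * l / R * (1 / (2 ^ C * Real.exp 1 * (4 * C + 8))) ≤
            N ^ (c' - 1) * l / R * 1 := mul_le_mul_of_nonneg_left e2 (by positivity)
        _ = N ^ (c' - 1) * l / R := mul_one _
        _ ≤ y ^ (c - 1) * (c * Real.log y + 1) / R := by
            refine div_le_div_of_nonneg_right ?_ hR.le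
            refine mul_le_mul hpow1 ?_ hl0.le hp0.le
            nlinarith
    · rw [abs_of_pos (by positivity), hTN]
      have e1 : 2 ^ C * Real.exp 1 * (4 * C + 8) * (N ^ (c' - 1) * N) / (R / l * N) =
          (2 ^ C * Real.exp 1 * N ^ (c' - 1)) * ((4 * C + 8) * l) / R := by
        field_simp
      rw [e1]
      refine div_le_div_of_nonneg_right ?_ hR.le
      refine mul_le_mul hpow2 ?_ (by positivity) (by positivity)
      nlinarith
    · rw [abs_of_pos (by positivity), hTN]
      have e1 : 2 ^ C * Real.exp 1 * (4 * C + 8) * (N ^ (c' - 1) * N) / ((R / l) ^ 2 * N) =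
          (2 ^ C * Real.exp 1 * N ^ (c' - 1)) * ((4 * C + 8) * l ^ 2) / R ^ 2 := by
        field_simp
      rw [e1]
      refine div_le_div_of_nonneg_right ?_ (by positivity)
      refine mul_le_mul hpow2 ?_ (by positivity) (by positivity)
      have h3 : Real.log y ^ 2 ≤ (2 * l) ^ 2 := pow_le_pow_left₀ hly0.le hly2 2
      have h4 : c * Real.log y ^ 2 ≤ (C + 1) * (2 * l) ^ 2 :=
        mul_le_mul hcC1 h3 (by positivity) (by linarith)
      have h5 : l ≤ l ^ 2 := by nlinarith
      nlinarith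
  · intro y ⟨hy1, _⟩
    have hy0 : 0 < y := by linarith
    refine Continuous.continuousOn ?_
    have h1 : Continuous fun t : ℝ => y ^ (t / R) :=
      Continuous.rpow continuous_const (by fun_prop) fun _ => Or.inl hy0.ne'
    exact h1.mul continuous_const

/-- **Exponents.** -/
theorem input_exp (A : Set ℝ) (hA : Sep A) (C : ℝ) (hC : 1 ≤ C) (f g : ℝ → ℝ)
    (hf : ∀ x, 0 ≤ f x) (hg : ∀ x, 0 ≤ g x) :
    Input (fun c a => a ^ c + f c + g a) A (Set.Icc 1 C) C := by
  classical
  intro ε hε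
  set ε₁ : ℝ := min ε 1 / 4 with hε₁
  have hε₁0 : 0 < ε₁ := by
    have : 0 < min ε 1 := lt_min hε one_pos
    positivity
  have hε₁ε : ε₁ ≤ ε / 4 := by
    rw [hε₁]
    have := min_le_left ε 1
    linarith
  have hε₁1 : ε₁ ≤ 1 / 4 := by
    rw [hε₁]
    have := min_le_right ε 1
    linarith
  obtain ⟨κ, hκ, hgen⟩ := general ε₁ hε₁0
  refine ⟨κ / 64, by positivity, ?_⟩
  set C₀ : ℝ := 2 ^ C * Real.exp 1 * (4 * C + 8) with hC₀
  have hC₀1 : 1 ≤ C₀ := by
    have h2C : (1 : ℝ) ≤ 2 ^ C := Real.one_le_rpow (by norm_num) (by linarith)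
    have he1 : (1 : ℝ) ≤ Real.exp 1 := by
      have := Real.add_one_le_exp (1 : ℝ)
      linarith
    have h3 : (1 : ℝ) ≤ 2 ^ C * Real.exp 1 := by nlinarith
    rw [hC₀]
    nlinarith
  have hlog : ∀ᶠ N : ℝ in atTop, (C + 1) * Real.log N ≤ N ^ ε₁ ∧ Real.log N ≤ N := by
    have h1 : ∀ᶠ x : ℝ in atTop, Real.log x ≤ 1 / (C + 1) * x ^ ε₁ := by
      have h := (isLittleO_log_rpow_atTop hε₁0).bound (show 0 < 1 / (C + 1) by positivity)
      filter_upwards [h, eventually_gt_atTop 1] with x hx hx1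
      rw [Real.norm_of_nonneg (Real.log_nonneg hx1.le),
        Real.norm_of_nonneg (by positivity)] at hx
      exact hx
    filter_upwards [h1, eventually_gt_atTop 0] with N hN hN0
    refine ⟨?_, (Real.log_le_sub_one_of_pos hN0).trans (by linarith)⟩
    calc (C + 1) * Real.log N ≤ (C + 1) * (1 / (C + 1) * N ^ ε₁) :=
          mul_le_mul_of_nonneg_left hN (by linarith)
      _ = N ^ ε₁ := by
          have : C + 1 ≠ 0 := by positivity
          field_simp
  filter_upwards [hgen C₀ hC₀1, ff_blk, eventually_ge_atTop 2, hlog,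
    Real.tendsto_log_atTop.eventually_ge_atTop 1] with N hN hff hN2 ⟨hlogN, hlogN2⟩ hlogN1
  intro X hX hsep B hB hcard
  have hN1 : 1 ≤ N := by linarith
  have hN0 : 0 < N := by linarith
  set l : ℝ := Real.log N with hl
  have hl0 : 0 < l := by linarith
  set R : ℝ := N ^ C with hR
  have hR0 : 0 < R := by positivity
  have hRN : N ≤ R := by
    calc N = N ^ (1 : ℝ) := (Real.rpow_one N).symm
      _ ≤ N ^ C := Real.rpow_le_rpow_of_exponent_le hN1 hC
  -- pigeonhole
  set K : ℕ := ⌊(C - 1) * l⌋₊ + 1 with hK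
  have hKle : (K : ℝ) ≤ (C + 1) * l := by
    rw [hK]
    push_cast
    have := Nat.floor_le (show 0 ≤ (C - 1) * l by
      have : 0 ≤ C - 1 := by linarith
      positivity)
    nlinarith
  have hKpos : (0 : ℝ) < K := by
    rw [hK]
    positivity
  have hmaps : ∀ x ∈ X, ⌊(x - 1) * l⌋₊ ∈ Finset.range K := by
    intro x hx
    obtain ⟨h1, h2⟩ := hX x hx
    rw [Finset.mem_range, hK, Nat.lt_succ_iff]
    exact Nat.floor_le_floor (by nlinarith)
  obtain ⟨i, hi, hfib⟩ : ∃ i ∈ Finset.range K,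
      (X.card : ℝ) / K ≤ ((X.filter fun x => ⌊(x - 1) * l⌋₊ = i).card : ℝ) := by
    by_contra hcon
    push Not at hcon
    have h1 := Finset.card_eq_sum_card_fiberwise (f := fun x => ⌊(x - 1) * l⌋₊) (s := X)
      (t := Finset.range K) hmaps
    have h2 : (X.card : ℝ) < ∑ _i ∈ Finset.range K, (X.card : ℝ) / K := by
      rw [h1]
      push_cast
      refine Finset.sum_lt_sum_of_nonempty ⟨0, by rw [Finset.mem_range, hK]; omega⟩ ?_
      intro j hj
      have h3 := hcon j hj
      rw [h1] at h3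
      push_cast at h3
      exact h3
    rw [Finset.sum_const, Finset.card_range, nsmul_eq_mul, mul_div_cancel₀ _ hKpos.ne'] at h2
    exact lt_irrefl _ h2
  set Y : Finset ℝ := X.filter fun x => ⌊(x - 1) * l⌋₊ = i with hY
  set c' : ℝ := 1 + i / l with hc'
  have hc1 : 1 ≤ c' := by
    rw [hc']
    have : (0 : ℝ) ≤ i / l := by positivity
    linarith
  have hYX : ∀ x ∈ Y, x ∈ X := fun x hx => (Finset.mem_filter.1 hx).1
  have hYc : ∀ x ∈ Y, c' ≤ x ∧ x ≤ c' + 1 / l := by
    intro x hx
    obtain ⟨h1, h2⟩ := Finset.mem_filter.1 hx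
    obtain ⟨h3, h4⟩ := hX x h1
    have h5 : (0 : ℝ) ≤ (x - 1) * l := by
      have : 0 ≤ x - 1 := by linarith
      positivity
    have h6 := Nat.floor_le h5
    have h7 := Nat.lt_floor_add_one ((x - 1) * l)
    rw [h2] at h6 h7
    constructor
    · rw [hc']
      have h8 : (i : ℝ) / l ≤ x - 1 := by rwa [div_le_iff₀ hl0]
      linarith
    · rw [hc', add_assoc, ← add_div]
      have h8 : x - 1 ≤ ((i : ℝ) + 1) / l := by
        rw [le_div_iff₀ hl0]
        exact h7.le
      linarith
  have hXpos : (0 : ℝ) < X.card := by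
    by_contra hcon
    have h1 : (X.card : ℝ) = 0 := le_antisymm (not_lt.1 hcon) (Nat.cast_nonneg _)
    rw [h1, zero_mul] at hcard
    have : 0 < N ^ (C + ε) := by positivity
    linarith
  have hYne : Y.Nonempty := by
    rw [← Finset.card_pos]
    have h1 : (0 : ℝ) < Y.card := lt_of_lt_of_le (by positivity) hfib
    exact_mod_cast h1
  have hcC : c' ≤ C := by
    obtain ⟨x, hx⟩ := hYne
    exact (hYc x hx).1.trans (hX x (hYX x hx)).2
  have hU1 : 1 ≤ R / l := by
    rw [le_div_iff₀ hl0, one_mul]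
    exact hlogN2.trans hRN
  have hphase := phase_exp C N R c' hC hlogN1 hN2 hR0 hc1 hcC
  have hsepX : Separated (R * c') (R / l) (Y.image fun x => R * x) := by
    refine ⟨?_, ?_⟩
    · intro x hx
      rw [Finset.mem_image] at hx
      obtain ⟨x', hx', rfl⟩ := hx
      obtain ⟨h1, h2⟩ := hYc x' hx'
      refine ⟨mul_le_mul_of_nonneg_left h1 hR0.le, ?_⟩
      have h3 : R * x' ≤ R * (c' + 1 / l) := mul_le_mul_of_nonneg_left h2 hR0.le
      refine h3.trans (le_of_eq ?_)
      ring
    · intro x hx y hy hxy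
      rw [Finset.mem_image] at hx hy
      obtain ⟨x', hx', rfl⟩ := hx
      obtain ⟨y', hy', rfl⟩ := hy
      have h1 := hsep x' (hYX x' hx') y' (hYX y' hy') (fun h => hxy (by rw [h]))
      rw [← mul_sub, abs_mul, abs_of_pos hR0]
      exact h1
  have hsepB : Separated N N B := by
    refine ⟨fun b hb => ?_, fun a ha b hb hab => hA a (hB a ha).1 b (hB b hb).1 hab⟩
    obtain ⟨-, h1, h2⟩ := hB b hb
    exact ⟨h1, by linarith⟩
  have hYcard := scaled_image_card Y R hR0
  have hYB : N ^ (-ε₁) * (X.card * B.card) ≤ (Y.card : ℝ) * B.card := by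
    have h1 : N ^ (-ε₁) ≤ 1 / K := by
      rw [Real.rpow_neg hN0.le, ← one_div]
      exact one_div_le_one_div_of_le hKpos (hKle.trans hlogN)
    calc N ^ (-ε₁) * (X.card * B.card) ≤ 1 / K * (X.card * B.card) :=
          mul_le_mul_of_nonneg_right h1 (by positivity)
      _ = X.card / K * B.card := by ring
      _ ≤ (Y.card : ℝ) * B.card := mul_le_mul_of_nonneg_right hfib (Nat.cast_nonneg _)
  have hcond : N ^ ε₁ * max (max (R / l) N) (max (N ^ c') (R / l * N / N ^ c')) ≤
      ((Y.image fun x => R * x).card : ℝ) * B.card := by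
    rw [hYcard]
    refine le_trans ?_ hYB
    have h2 : max (max (R / l) N) (max (N ^ c') (R / l * N / N ^ c')) ≤ R := by
      have h3 : R / l ≤ R := div_le_self hR0.le hlogN1
      have h4 : N ^ c' ≤ R := Real.rpow_le_rpow_of_exponent_le hN1 hcC
      have h5 : R / l * N / N ^ c' ≤ R := by
        rw [div_le_iff₀ (by positivity)]
        have h6 : N ≤ N ^ c' := by
          calc N = N ^ (1 : ℝ) := (Real.rpow_one N).symm
            _ ≤ N ^ c' := Real.rpow_le_rpow_of_exponent_le hN1 hc1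
        exact mul_le_mul h3 h6 hN0.le hR0.le
      exact max_le (max_le h3 hRN) (max_le h4 h5)
    calc N ^ ε₁ * max (max (R / l) N) (max (N ^ c') (R / l * N / N ^ c')) ≤ N ^ ε₁ * R :=
          mul_le_mul_of_nonneg_left h2 (by positivity)
      _ = N ^ (ε₁ + C) := (Real.rpow_add hN0 _ _).symm
      _ ≤ N ^ (-ε₁ + (C + ε)) := Real.rpow_le_rpow_of_exponent_le hN1 (by linarith)
      _ = N ^ (-ε₁) * N ^ (C + ε) := Real.rpow_add hN0 _ _
      _ ≤ N ^ (-ε₁) * (X.card * B.card) := mul_le_mul_of_nonneg_left hcard (by positivity)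
  have hval : ∀ a ∈ (Y.image fun x => R * x), ∀ b ∈ B,
      N ^ ε₁ ≤ b ^ (a / R) + f (a / R) + g b := by
    intro a ha b hb
    rw [Finset.mem_image] at ha
    obtain ⟨x, hx, rfl⟩ := ha
    obtain ⟨h1, -⟩ := hX x (hYX x hx)
    obtain ⟨-, h2, -⟩ := hB b hb
    have h3 : R * x / R = x := by field_simp
    rw [h3]
    have h4 := hf x
    have h5 := hg b
    have h6 : N ^ ε₁ ≤ b ^ x := by
      calc N ^ ε₁ ≤ N ^ x := Real.rpow_le_rpow_of_exponent_le hN1 (by linarith)
        _ ≤ b ^ x := Real.rpow_le_rpow hN0.le h2 (by linarith)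
    linarith
  have hmain := hN (N ^ c') (R / l) N (R * c') N (by positivity) hU1 hN1 le_rfl
    (fun x y => y ^ (x / R)) hphase (Y.image fun x => R * x) B hsepX hsepB hcond
    (fun x => f (x / R)) g hval
  rw [hYcard] at hmain
  have hcomp := scaled_card Y B R hR0
    (fun x b => PrimeFree (b ^ (x / R) + f (x / R) + g b) (κ * ff N))
    (fun x b => PrimeFree (b ^ x + f x + g b) (κ / 64 * ff b)) (by
      intro x hx b hb h
      obtain ⟨-, h2, h3⟩ := hB b hb
      have e2 : R * x / R = x := by field_simp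
      rw [e2] at h
      refine pf_mono h ?_
      have h4 := hff b h2 h3
      nlinarith)
  have hsub : ((Y ×ˢ B).filter fun p : ℝ × ℝ =>
      PrimeFree (p.2 ^ p.1 + f p.1 + g p.2) (κ / 64 * ff p.2)).card ≤
      ((X ×ˢ B).filter fun p : ℝ × ℝ =>
        PrimeFree (p.2 ^ p.1 + f p.1 + g p.2) (κ / 64 * ff p.2)).card := by
    refine Finset.card_le_card (Finset.filter_subset_filter _ ?_)
    exact Finset.product_subset_product_left (Finset.filter_subset _ _)
  calc (X.card : ℝ) * B.card * N ^ (-ε) ≤ (X.card : ℝ) * B.card * N ^ (-ε₁ + -ε₁) :=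
        mul_le_mul_of_nonneg_left (Real.rpow_le_rpow_of_exponent_le hN1 (by linarith))
          (by positivity)
    _ = (N ^ (-ε₁) * (X.card * B.card)) * N ^ (-ε₁) := by
        rw [Real.rpow_add hN0]
        ring
    _ ≤ ((Y.card : ℝ) * B.card) * N ^ (-ε₁) := mul_le_mul_of_nonneg_right hYB (by positivity)
    _ ≤ _ := hmain
    _ ≤ _ := by exact_mod_cast hcomp.trans hsub

end Pool.Agent.W5h23.MT
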